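import Mathlib

namespace Pool.Agent.Results.MP_dbe012_pr.NoiseReversal

open MeasureTheory Set Filter Topology ProbabilityTheory
open scoped ENNReal

/-- The quantile function `F⁻¹(p) = inf {x : F(x) ≥ p}` of the law `μ`. -/
noncomputable def quantile (μ : Measure ℝ) (p : ℝ) : ℝ := sInf {x : ℝ | p ≤ μ.real (Iic x)}

/-- `invDist μ n` is `F^{[-n]}`: the quantile function for `n = 1`, and the primitive
`p ↦ ∫_0^p F^{[-(n-1)]}` for `n ≥ 2` (the value at `n = 0` is not used). -/
noncomputable def invDist (μ : Measure ℝ) : ℕ → ℝ → ℝ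
  | 0 => fun _ => 0
  | 1 => quantile μ
  | (n + 2) => fun p => ∫ u in (0 : ℝ)..p, invDist μ (n + 1) u

/-- `X ≤_n^- Y` for the laws `μ` of `X` and `μ'` of `Y`. -/
def ISDle (n : ℕ) (μ μ' : Measure ℝ) : Prop :=
  ∀ p ∈ Ioo (0 : ℝ) 1, invDist μ n p ≤ invDist μ' n p

/-- `E[min(X_1, ..., X_k)]` for `k` independent variables of law `μ` (`k ≥ 1`). -/
noncomputable def minMean (μ : Measure ℝ) (k : ℕ) : ℝ :=
  ∫ x : Fin k → ℝ, (⨅ i, x i) ∂(Measure.pi fun _ => μ)

/-- `X <_n^- Y` for the laws `μ` of `X` and `μ'` of `Y`. -/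
def ISDlt (n : ℕ) (μ μ' : Measure ℝ) : Prop :=
  ISDle n μ μ' ∧ ∃ p ∈ Ioo (0 : ℝ) 1, invDist μ n p < invDist μ' n p

lemma quantile_le_iff (μ : Measure ℝ) [IsProbabilityMeasure μ] {p : ℝ} (hp : p ∈ Ioo (0 : ℝ) 1)
    (w : ℝ) : quantile μ p ≤ w ↔ p ≤ μ.real (Iic w) := by
  have hF : ∀ x, μ.real (Iic x) = cdf μ x := fun x => (cdf_eq_real μ x).symm
  have hbdd : BddBelow {x : ℝ | p ≤ μ.real (Iic x)} := by
    have h := (tendsto_cdf_atBot μ).eventually (gt_mem_nhds hp.1)
    obtain ⟨m, hm⟩ := h.exists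
    refine ⟨m, fun x hx => ?_⟩
    by_contra hlt
    push Not at hlt
    have h1 := monotone_cdf μ hlt.le
    have h2 : p ≤ cdf μ x := by rw [← hF]; exact hx
    linarith
  have hne : {x : ℝ | p ≤ μ.real (Iic x)}.Nonempty := by
    have h := (tendsto_cdf_atTop μ).eventually (lt_mem_nhds hp.2)
    obtain ⟨m, hm⟩ := h.exists
    refine ⟨m, ?_⟩
    show p ≤ μ.real (Iic m)
    rw [hF]
    exact hm.le
  constructor
  · intro h
    rw [hF]
    have hr : Tendsto (cdf μ) (𝓝[>] w) (𝓝 (cdf μ w)) :=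
      ((cdf μ).right_continuous w).tendsto.mono_left (nhdsWithin_mono _ Ioi_subset_Ici_self)
    apply ge_of_tendsto hr
    filter_upwards [self_mem_nhdsWithin] with x hx
    obtain ⟨y, hy, hyx⟩ := exists_lt_of_csInf_lt hne (lt_of_le_of_lt h hx)
    have h2 : p ≤ cdf μ y := by rw [← hF]; exact hy
    exact h2.trans (monotone_cdf μ hyx.le)
  · intro h
    exact csInf_le hbdd h

lemma quantile_mono (μ : Measure ℝ) [IsProbabilityMeasure μ] :
    MonotoneOn (quantile μ) (Ioo 0 1) := by
  intro p hp p' hp' h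
  rw [quantile_le_iff μ hp]
  exact h.trans ((quantile_le_iff μ hp' _).mp le_rfl)

/-- The law of the minimum of `k` independent uniform variables. -/
noncomputable def lam (k : ℕ) : Measure ℝ :=
  (volume.restrict (Ioo (0 : ℝ) 1)).withDensity
    (fun u => ENNReal.ofReal (k * (1 - u) ^ (k - 1)))

lemma lam_ac (k : ℕ) : lam k ≪ volume.restrict (Ioo (0 : ℝ) 1) :=
  withDensity_absolutelyContinuous _ _

lemma ae_lam (k : ℕ) : ∀ᵐ u ∂(lam k), u ∈ Ioo (0 : ℝ) 1 :=
  (lam_ac k) (ae_restrict_mem measurableSet_Ioo)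

lemma aem_quantile (μ : Measure ℝ) [IsProbabilityMeasure μ] :
    AEMeasurable (quantile μ) (volume.restrict (Ioo (0 : ℝ) 1)) :=
  aemeasurable_restrict_of_monotoneOn measurableSet_Ioo (quantile_mono μ)

lemma lam_Iic (k : ℕ) (hk : k ≠ 0) (a : ℝ) (ha0 : 0 ≤ a) (ha1 : a ≤ 1) :
    lam k (Iic a) = ENNReal.ofReal (1 - (1 - a) ^ k) := by
  unfold lam
  rw [withDensity_apply _ measurableSet_Iic, Measure.restrict_restrict measurableSet_Iic]
  have h1 : (volume.restrict (Iic a ∩ Ioo (0 : ℝ) 1)) = volume.restrict (Ioc (0 : ℝ) a) := by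
    apply Measure.restrict_congr_set
    have h2 : (Ioo (0:ℝ) 1 : Set ℝ) =ᵐ[volume] Ioc 0 1 := Ioo_ae_eq_Ioc
    have h3 : (Iic a ∩ Ioo (0 : ℝ) 1 : Set ℝ) =ᵐ[volume] (Iic a ∩ Ioc 0 1 : Set ℝ) :=
      (ae_eq_refl _).inter h2
    have h4 : (Iic a ∩ Ioc 0 1 : Set ℝ) = Ioc 0 a := by
      ext x
      simp only [mem_inter_iff, mem_Iic, mem_Ioc]
      constructor
      · rintro ⟨h, h', _⟩; exact ⟨h', h⟩
      · rintro ⟨h, h'⟩; exact ⟨h', h, h'.trans ha1⟩
    rw [← h4]
    exact h3
  rw [h1, ← ofReal_integral_eq_lintegral_ofReal]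
  · congr 1
    rw [← intervalIntegral.integral_of_le ha0]
    have hd : ∀ u ∈ uIcc 0 a, HasDerivAt (fun u : ℝ => -(1 - u) ^ k)
        ((k : ℝ) * (1 - u) ^ (k - 1)) u := by
      intro u _
      have h0 : HasDerivAt (fun u : ℝ => 1 - u) (-1) u := by
        simpa using (hasDerivAt_id u).const_sub 1
      have h5 : HasDerivAt (fun u : ℝ => -(1 - u) ^ k) (-(↑k * (1 - u) ^ (k - 1) * -1)) u :=
        (h0.pow k).neg
      exact h5.congr_deriv (by ring)
    rw [intervalIntegral.integral_eq_sub_of_hasDerivAt hd]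
    · rw [sub_zero, one_pow]
      ring
    · apply Continuous.intervalIntegrable
      fun_prop
  · apply Continuous.integrableOn_Ioc
    fun_prop
  · filter_upwards [ae_restrict_mem measurableSet_Ioc] with u hu
    have : 0 ≤ 1 - u := by linarith [hu.2]
    show (0 : ℝ) ≤ (k : ℝ) * (1 - u) ^ (k - 1)
    positivity

instance lam_prob (k : ℕ) [NeZero k] : IsProbabilityMeasure (lam k) := by
  constructor
  have h := lam_Iic k (NeZero.ne k) 1 zero_le_one le_rfl
  have h2 : lam k univ = lam k (Iic 1) := by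
    apply measure_congr
    filter_upwards [ae_lam k] with u hu
    have h3 : u ∈ Iic (1 : ℝ) := hu.2.le
    exact propext ⟨fun _ => h3, fun _ => trivial⟩
  rw [h2, h]
  simp [NeZero.ne k]

/-- The law of the quantile function under `lam k` has tail function the `k`-th power. -/
lemma map_lam_Iic (μ : Measure ℝ) [IsProbabilityMeasure μ] (k : ℕ) [NeZero k] (w : ℝ) :
    ((lam k).map (quantile μ)) (Iic w) = ENNReal.ofReal (1 - (1 - μ.real (Iic w)) ^ k) := by
  rw [Measure.map_apply_of_aemeasurable ((aem_quantile μ).mono_ac (lam_ac k)) measurableSet_Iic]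
  rw [← lam_Iic k (NeZero.ne k) (μ.real (Iic w)) measureReal_nonneg measureReal_le_one]
  apply measure_congr
  filter_upwards [ae_lam k] with u hu
  exact propext (quantile_le_iff μ hu w)


noncomputable def fX (a b c : ℝ) : ℝ :=
  (8/27) * min (a-1) (min (b-1) (c-1)) + (4/27) * min (a+2) (min (b-1) (c-1))
  + (4/27) * min (a-1) (min (b+2) (c-1)) + (4/27) * min (a-1) (min (b-1) (c+2))
  + (2/27) * min (a+2) (min (b+2) (c-1)) + (2/27) * min (a+2) (min (b-1) (c+2))
  + (2/27) * min (a-1) (min (b+2) (c+2)) + (1/27) * min (a+2) (min (b+2) (c+2))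

noncomputable def fY (a b c : ℝ) : ℝ :=
  (8/27) * min (a+1) (min (b+1) (c+1)) + (4/27) * min (a-2) (min (b+1) (c+1))
  + (4/27) * min (a+1) (min (b-2) (c+1)) + (4/27) * min (a+1) (min (b+1) (c-2))
  + (2/27) * min (a-2) (min (b-2) (c+1)) + (2/27) * min (a-2) (min (b+1) (c-2))
  + (2/27) * min (a+1) (min (b-2) (c-2)) + (1/27) * min (a-2) (min (b-2) (c-2))

lemma sorted (a b c : ℝ) (h1 : a ≤ b) (h2 : b ≤ c) :
    fX a b c - fY a b c = (2/27) * max 0 (3 - (c - a)) := by
  unfold fX fY
  have L : ∀ x y z : ℝ, x ≤ y → x ≤ z → min x (min y z) = x :=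
    fun x y z h h' => min_eq_left (le_min h h')
  have M : ∀ x y z : ℝ, y ≤ z → min x (min y z) = min x y :=
    fun x y z h => by rw [min_eq_left h]
  have M' : ∀ x y z : ℝ, x ≤ y → min x (min y z) = min x z := by
    intro x y z h
    rw [← min_assoc, min_eq_left h]
  rw [L (a-1) (b-1) (c-1) (by linarith) (by linarith), M (a+2) (b-1) (c-1) (by linarith),
    L (a-1) (b+2) (c-1) (by linarith) (by linarith), L (a-1) (b-1) (c+2) (by linarith) (by linarith),
    M' (a+2) (b+2) (c-1) (by linarith), M (a+2) (b-1) (c+2) (by linarith),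
    L (a-1) (b+2) (c+2) (by linarith) (by linarith), L (a+2) (b+2) (c+2) (by linarith) (by linarith),
    L (a+1) (b+1) (c+1) (by linarith) (by linarith), L (a-2) (b+1) (c+1) (by linarith) (by linarith),
    M (a+1) (b-2) (c+1) (by linarith), M' (a+1) (b+1) (c-2) (by linarith),
    L (a-2) (b-2) (c+1) (by linarith) (by linarith), L (a-2) (b+1) (c-2) (by linarith) (by linarith),
    M (a+1) (b-2) (c-2) (by linarith), L (a-2) (b-2) (c-2) (by linarith) (by linarith)]
  rcases le_total (c - a) 3 with h | h <;> rcases le_total (b - a) 3 with h' | h'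
  · rw [min_eq_right (by linarith : b - 1 ≤ a + 2), min_eq_right (by linarith : c - 1 ≤ a + 2),
      min_eq_right (by linarith : b - 2 ≤ a + 1), min_eq_right (by linarith : c - 2 ≤ a + 1),
      max_eq_right (by linarith)]
    ring
  · rw [min_eq_left (by linarith : a + 2 ≤ b - 1), min_eq_right (by linarith : c - 1 ≤ a + 2),
      min_eq_left (by linarith : a + 1 ≤ b - 2), min_eq_right (by linarith : c - 2 ≤ a + 1),
      max_eq_right (by linarith)]
    linarith
  · rw [min_eq_right (by linarith : b - 1 ≤ a + 2), min_eq_left (by linarith : a + 2 ≤ c - 1),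
      min_eq_right (by linarith : b - 2 ≤ a + 1), min_eq_left (by linarith : a + 1 ≤ c - 2),
      max_eq_left (by linarith)]
    ring
  · rw [min_eq_left (by linarith : a + 2 ≤ b - 1), min_eq_left (by linarith : a + 2 ≤ c - 1),
      min_eq_left (by linarith : a + 1 ≤ b - 2), min_eq_left (by linarith : a + 1 ≤ c - 2),
      max_eq_left (by linarith)]
    ring

lemma swap12X (a b c : ℝ) : fX b a c = fX a b c := by
  unfold fX
  have e : ∀ x y z : ℝ, min x (min y z) = min y (min x z) := fun x y z => min_left_comm x y z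
  rw [e (b-1) (a-1), e (b+2) (a-1), e (b-1) (a+2), e (b-1) (a-1), e (b+2) (a+2), e (b+2) (a-1),
    e (b-1) (a+2), e (b+2) (a+2)]
  ring

lemma swap23X (a b c : ℝ) : fX a c b = fX a b c := by
  unfold fX
  rw [min_comm (c-1) (b-1), min_comm (c+2) (b-1), min_comm (c-1) (b+2), min_comm (c+2) (b+2)]
  ring

lemma swap12Y (a b c : ℝ) : fY b a c = fY a b c := by
  unfold fY
  have e : ∀ x y z : ℝ, min x (min y z) = min y (min x z) := fun x y z => min_left_comm x y z
  rw [e (b+1) (a+1), e (b-2) (a+1), e (b+1) (a-2), e (b+1) (a+1), e (b-2) (a-2), e (b-2) (a+1),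
    e (b+1) (a-2), e (b-2) (a-2)]
  ring

lemma swap23Y (a b c : ℝ) : fY a c b = fY a b c := by
  unfold fY
  rw [min_comm (c+1) (b+1), min_comm (c-2) (b+1), min_comm (c+1) (b-2), min_comm (c-2) (b-2)]
  ring

lemma nonneg (a b c : ℝ) : 0 ≤ fX a b c - fY a b c := by
  have key : ∀ a b c : ℝ, a ≤ b → b ≤ c → 0 ≤ fX a b c - fY a b c := by
    intro a b c h1 h2
    rw [sorted a b c h1 h2]
    positivity
  rcases le_total a b with h1 | h1 <;> rcases le_total b c with h2 | h2 <;>
    rcases le_total a c with h3 | h3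
  · exact key a b c h1 h2
  · exact key a b c h1 h2
  · rw [← swap23X, ← swap23Y]; exact key a c b h3 h2
  · rw [← swap23X, ← swap23Y, ← swap12X, ← swap12Y]; exact key c a b h3 h1
  · rw [← swap12X, ← swap12Y]; exact key b a c h1 h3
  · rw [← swap12X, ← swap12Y, ← swap23X, ← swap23Y]; exact key b c a h2 h3
  · rw [← swap12X, ← swap12Y, ← swap23X, ← swap23Y, ← swap12X, ← swap12Y]; exact key c b a h2 h1
  · rw [← swap12X, ← swap12Y, ← swap23X, ← swap23Y, ← swap12X, ← swap12Y]; exact key c b a h2 h1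

/-- lower bound when all three are within distance one -/
lemma lower (a b c k : ℝ) (ha : k ≤ a) (hb : k ≤ b) (hc : k ≤ c) (ha' : a ≤ k + 1)
    (hb' : b ≤ k + 1) (hc' : c ≤ k + 1) : 4 / 27 ≤ fX a b c - fY a b c := by
  have key : ∀ a b c : ℝ, k ≤ a → c ≤ k + 1 → a ≤ b → b ≤ c → 4 / 27 ≤ fX a b c - fY a b c := by
    intro a b c h h' h1 h2
    rw [sorted a b c h1 h2]
    have := le_max_right 0 (3 - (c - a))
    linarith
  rcases le_total a b with h1 | h1 <;> rcases le_total b c with h2 | h2 <;>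
    rcases le_total a c with h3 | h3
  · exact key a b c ha hc' h1 h2
  · exact key a b c ha hc' h1 h2
  · rw [← swap23X, ← swap23Y]; exact key a c b ha hb' h3 h2
  · rw [← swap23X, ← swap23Y, ← swap12X, ← swap12Y]; exact key c a b hc hb' h3 h1
  · rw [← swap12X, ← swap12Y]; exact key b a c hb hc' h1 h3
  · rw [← swap12X, ← swap12Y, ← swap23X, ← swap23Y]; exact key b c a hb ha' h2 h3
  · rw [← swap12X, ← swap12Y, ← swap23X, ← swap23Y, ← swap12X, ← swap12Y]; exact key c b a hc ha' h2 h1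
  · rw [← swap12X, ← swap12Y, ← swap23X, ← swap23Y, ← swap12X, ← swap12Y]; exact key c b a hc ha' h2 h1

section measures

/-- Two-point law: `a` with probability `1 - s`, `b` with probability `s`. -/
noncomputable def two (s a b : ℝ) : Measure ℝ :=
  ENNReal.ofReal (1 - s) • Measure.dirac a + ENNReal.ofReal s • Measure.dirac b

lemma two_prob (s a b : ℝ) (h0 : 0 ≤ s) (h1 : s ≤ 1) : IsProbabilityMeasure (two s a b) := by
  constructor
  simp only [two, Measure.coe_add, Measure.coe_smul, Pi.add_apply, Pi.smul_apply, smul_eq_mul,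
    measure_univ, mul_one]
  rw [← ENNReal.ofReal_add (by linarith) h0]
  simp

lemma ext_of_real_Ioi {ρ κ : Measure ℝ} [IsProbabilityMeasure ρ] [IsProbabilityMeasure κ]
    (h : ∀ w, ρ.real (Ioi w) = κ.real (Ioi w)) : ρ = κ := by
  apply Measure.ext_of_Iic
  intro w
  have h1 : ρ.real (Iic w) = κ.real (Iic w) := by
    rw [← compl_Ioi, probReal_compl_eq_one_sub measurableSet_Ioi,
      probReal_compl_eq_one_sub measurableSet_Ioi, h w]
  rwa [Measure.real, Measure.real, ENNReal.toReal_eq_toReal_iff' (measure_ne_top _ _)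
    (measure_ne_top _ _)] at h1

lemma real_Iic {ρ : Measure ℝ} [IsProbabilityMeasure ρ] (w : ℝ) :
    ρ.real (Iic w) = 1 - ρ.real (Ioi w) := by
  rw [← compl_Ioi, probReal_compl_eq_one_sub measurableSet_Ioi]

lemma map_lam_Ioi (μ : Measure ℝ) [IsProbabilityMeasure μ] (k : ℕ) [NeZero k] (w : ℝ) :
    ((lam k).map (quantile μ)).real (Ioi w) = μ.real (Ioi w) ^ k := by
  have : IsProbabilityMeasure ((lam k).map (quantile μ)) :=
    Measure.isProbabilityMeasure_map ((aem_quantile μ).mono_ac (lam_ac k))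
  have h1 : ((lam k).map (quantile μ)).real (Iic w) = 1 - (1 - μ.real (Iic w)) ^ k := by
    rw [Measure.real, map_lam_Iic, ENNReal.toReal_ofReal]
    have h2 : 0 ≤ 1 - μ.real (Iic w) := by
      have := measureReal_le_one (μ := μ) (s := Iic w)
      linarith
    have h3 : 1 - μ.real (Iic w) ≤ 1 := by
      have := measureReal_nonneg (μ := μ) (s := Iic w)
      linarith
    have := pow_le_one₀ (n := k) h2 h3
    linarith
  rw [real_Iic, real_Iic] at h1
  have h4 : 1 - (1 - μ.real (Ioi w)) = μ.real (Ioi w) := by ring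
  rw [h4] at h1
  linarith

variable (s a b : ℝ) (ν : Measure ℝ) [IsProbabilityMeasure ν]

lemma conv_Ioi (h0 : 0 ≤ s) (h1 : s ≤ 1) (w : ℝ) :
    (Measure.conv (two s a b) ν).real (Ioi w) =
      (1 - s) * ν.real (Ioi (w - a)) + s * ν.real (Ioi (w - b)) := by
  have h : Measure.conv (two s a b) ν = ENNReal.ofReal (1 - s) • ν.map (fun y => a + y) +
      ENNReal.ofReal s • ν.map (fun y => b + y) := by
    unfold two
    rw [Measure.add_conv, Measure.conv_smul_left, Measure.conv_smul_left, Measure.dirac_conv,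
      Measure.dirac_conv]
  have hm : ∀ c : ℝ, (ν.map (fun y => c + y)) (Ioi w) = ν (Ioi (w - c)) := by
    intro c
    rw [Measure.map_apply (by fun_prop) measurableSet_Ioi]
    congr 1
    ext x
    simp only [mem_preimage, mem_Ioi]
    constructor <;> intro h <;> linarith
  rw [h, Measure.real]
  simp only [Measure.coe_add, Measure.coe_smul, Pi.add_apply, Pi.smul_apply, smul_eq_mul, hm]
  rw [ENNReal.toReal_add (ENNReal.mul_ne_top ENNReal.ofReal_ne_top (measure_ne_top _ _))
    (ENNReal.mul_ne_top ENNReal.ofReal_ne_top (measure_ne_top _ _)), ENNReal.toReal_mul,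
    ENNReal.toReal_mul, ENNReal.toReal_ofReal (by linarith), ENNReal.toReal_ofReal h0]
  rfl

/-- weights and points -/
def wt (s : ℝ) (β : Bool) : ℝ := if β then s else 1 - s
def pt (a b : ℝ) (β : Bool) : ℝ := if β then b else a

noncomputable def g3 (x y z : ℝ) (v : ℝ × ℝ × ℝ) : ℝ := min (v.1 + x) (min (v.2.1 + y) (v.2.2 + z))

lemma meas_g3 (x y z : ℝ) : Measurable (g3 x y z) := by
  unfold g3
  fun_prop

/-- The law of the minimum of three independent copies of `X + Z`, as a mixture. -/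
noncomputable def mix : Measure ℝ :=
  ∑ β : Bool × Bool × Bool, ENNReal.ofReal (wt s β.1 * wt s β.2.1 * wt s β.2.2) •
    (ν.prod (ν.prod ν)).map (g3 (pt a b β.1) (pt a b β.2.1) (pt a b β.2.2))

lemma wt_nonneg (h0 : 0 ≤ s) (h1 : s ≤ 1) (β : Bool) : 0 ≤ wt s β := by
  unfold wt
  split_ifs <;> linarith

lemma mix_real (h0 : 0 ≤ s) (h1 : s ≤ 1) (A : Set ℝ) :
    (mix s a b ν).real A = ∑ β : Bool × Bool × Bool, (wt s β.1 * wt s β.2.1 * wt s β.2.2) *
      ((ν.prod (ν.prod ν)).map (g3 (pt a b β.1) (pt a b β.2.1) (pt a b β.2.2))).real A := by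
  unfold mix
  rw [Measure.real, Measure.finsetSum_apply, ENNReal.toReal_sum]
  · apply Finset.sum_congr rfl
    intro β _
    rw [Measure.smul_apply, smul_eq_mul, ENNReal.toReal_mul, ENNReal.toReal_ofReal]
    · rfl
    · exact mul_nonneg (mul_nonneg (wt_nonneg s h0 h1 _) (wt_nonneg s h0 h1 _))
        (wt_nonneg s h0 h1 _)
  · intro β _
    rw [Measure.smul_apply, smul_eq_mul]
    have : IsProbabilityMeasure ((ν.prod (ν.prod ν)).map
      (g3 (pt a b β.1) (pt a b β.2.1) (pt a b β.2.2))) :=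
      Measure.isProbabilityMeasure_map (meas_g3 _ _ _).aemeasurable
    exact ENNReal.mul_ne_top ENNReal.ofReal_ne_top (measure_ne_top _ _)

lemma mix_prob (h0 : 0 ≤ s) (h1 : s ≤ 1) : IsProbabilityMeasure (mix s a b ν) := by
  apply isProbabilityMeasure_iff_real.mpr
  rw [mix_real s a b ν h0 h1]
  have : ∀ β : Bool × Bool × Bool, ((ν.prod (ν.prod ν)).map
      (g3 (pt a b β.1) (pt a b β.2.1) (pt a b β.2.2))).real univ = 1 := by
    intro β
    have : IsProbabilityMeasure ((ν.prod (ν.prod ν)).map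
      (g3 (pt a b β.1) (pt a b β.2.1) (pt a b β.2.2))) :=
      Measure.isProbabilityMeasure_map (meas_g3 _ _ _).aemeasurable
    exact probReal_univ
  simp only [this, Fintype.sum_prod_type, Fintype.sum_bool, wt]
  simp
  ring

lemma g3_Ioi (x y z w : ℝ) : ((ν.prod (ν.prod ν)).map (g3 x y z)).real (Ioi w) =
    ν.real (Ioi (w - x)) * (ν.real (Ioi (w - y)) * ν.real (Ioi (w - z))) := by
  rw [Measure.real, Measure.map_apply (meas_g3 _ _ _) measurableSet_Ioi]
  have : g3 x y z ⁻¹' Ioi w = Ioi (w - x) ×ˢ (Ioi (w - y) ×ˢ Ioi (w - z)) := by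
    ext v
    simp only [g3, mem_preimage, mem_Ioi, lt_min_iff, mem_prod]
    constructor
    · rintro ⟨h1, h2, h3⟩
      exact ⟨by linarith, by linarith, by linarith⟩
    · rintro ⟨h1, h2, h3⟩
      exact ⟨by linarith, by linarith, by linarith⟩
  rw [this, Measure.prod_prod, Measure.prod_prod, ENNReal.toReal_mul, ENNReal.toReal_mul]
  rfl

lemma mix_Ioi (h0 : 0 ≤ s) (h1 : s ≤ 1) (w : ℝ) :
    (mix s a b ν).real (Ioi w) = (Measure.conv (two s a b) ν).real (Ioi w) ^ 3 := by
  rw [mix_real s a b ν h0 h1, conv_Ioi s a b ν h0 h1]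
  simp only [g3_Ioi, Fintype.sum_prod_type, Fintype.sum_bool, wt, pt]
  simp
  ring

lemma mix_eq (h0 : 0 ≤ s) (h1 : s ≤ 1) :
    mix s a b ν = (lam 3).map (quantile (Measure.conv (two s a b) ν)) := by
  have := mix_prob s a b ν h0 h1
  have := two_prob s a b h0 h1
  have : IsProbabilityMeasure ((lam 3).map (quantile (Measure.conv (two s a b) ν))) :=
    Measure.isProbabilityMeasure_map ((aem_quantile _).mono_ac (lam_ac 3))
  apply ext_of_real_Ioi
  intro w
  rw [map_lam_Ioi, mix_Ioi s a b ν h0 h1]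

end measures



section integrals

lemma lam_one : lam 1 = volume.restrict (Ioo (0 : ℝ) 1) := by
  unfold lam
  simp

/-- swapping the order in `∫ φ ∫ h` -/
lemma swap_int (φ h : ℝ → ℝ) (hφ : IntervalIntegrable φ volume 0 1)
    (hh : IntervalIntegrable h volume 0 1) :
    ∫ p in (0 : ℝ)..1, φ p * ∫ u in (0 : ℝ)..p, h u =
      ∫ u in (0 : ℝ)..1, (∫ p in u..1, φ p) * h u := by
  rw [intervalIntegral.integral_of_le zero_le_one, intervalIntegral.integral_of_le zero_le_one]
  have hφ' : Integrable φ (volume.restrict (Ioc (0 : ℝ) 1)) :=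
    (intervalIntegrable_iff_integrableOn_Ioc_of_le zero_le_one).mp hφ
  have hh' : Integrable h (volume.restrict (Ioc (0 : ℝ) 1)) :=
    (intervalIntegrable_iff_integrableOn_Ioc_of_le zero_le_one).mp hh
  have hprod := hφ'.mul_prod hh'
  have hS : MeasurableSet {z : ℝ × ℝ | z.2 ≤ z.1} := measurableSet_le measurable_snd measurable_fst
  have hind := hprod.indicator hS
  have key := integral_integral_swap (f := fun p u => ({z : ℝ × ℝ | z.2 ≤ z.1}).indicator
    (fun z : ℝ × ℝ => φ z.1 * h z.2) (p, u)) hind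
  have e1 : ∀ p ∈ Ioc (0 : ℝ) 1, ∫ u in Ioc (0 : ℝ) 1, ({z : ℝ × ℝ | z.2 ≤ z.1}).indicator
    (fun z : ℝ × ℝ => φ z.1 * h z.2) (p, u) = φ p * ∫ u in (0 : ℝ)..p, h u := by
    intro p hp
    rw [intervalIntegral.integral_of_le hp.1.le, ← integral_const_mul]
    have h2 : ∀ u, ({z : ℝ × ℝ | z.2 ≤ z.1}).indicator (fun z : ℝ × ℝ => φ z.1 * h z.2) (p, u) =
        (Iic p).indicator (fun u => φ p * h u) u := by
      intro u
      by_cases hu : u ≤ p
      · rw [indicator_of_mem (show (p, u) ∈ {z : ℝ × ℝ | z.2 ≤ z.1} from hu),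
          indicator_of_mem (show u ∈ Iic p from hu)]
      · rw [indicator_of_notMem (show (p, u) ∉ {z : ℝ × ℝ | z.2 ≤ z.1} from hu),
          indicator_of_notMem (show u ∉ Iic p from hu)]
    simp only [h2]
    rw [integral_indicator measurableSet_Iic, Measure.restrict_restrict measurableSet_Iic]
    congr 2
    ext x
    simp only [mem_inter_iff, mem_Iic, mem_Ioc]
    constructor
    · rintro ⟨h, h', _⟩; exact ⟨h', h⟩
    · rintro ⟨h, h'⟩; exact ⟨h', h, h'.trans hp.2⟩
  have e2 : ∀ u ∈ Ioc (0 : ℝ) 1, ∫ p in Ioc (0 : ℝ) 1, ({z : ℝ × ℝ | z.2 ≤ z.1}).indicator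
    (fun z : ℝ × ℝ => φ z.1 * h z.2) (p, u) = (∫ p in u..1, φ p) * h u := by
    intro u hu
    rw [intervalIntegral.integral_of_le hu.2, ← integral_mul_const]
    have h2 : ∀ p, ({z : ℝ × ℝ | z.2 ≤ z.1}).indicator (fun z : ℝ × ℝ => φ z.1 * h z.2) (p, u) =
        (Ici u).indicator (fun p => φ p * h u) p := by
      intro p
      by_cases hu : u ≤ p
      · rw [indicator_of_mem (show (p, u) ∈ {z : ℝ × ℝ | z.2 ≤ z.1} from hu),
          indicator_of_mem (show p ∈ Ici u from hu)]
      · rw [indicator_of_notMem (show (p, u) ∉ {z : ℝ × ℝ | z.2 ≤ z.1} from hu),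
          indicator_of_notMem (show p ∉ Ici u from hu)]
    simp only [h2]
    rw [integral_indicator measurableSet_Ici, Measure.restrict_restrict measurableSet_Ici]
    have h3 : (Ici u ∩ Ioc 0 1 : Set ℝ) = Icc u 1 := by
      ext x
      simp only [mem_inter_iff, mem_Ici, mem_Ioc, mem_Icc]
      constructor
      · rintro ⟨h, _, h'⟩; exact ⟨h, h'⟩
      · rintro ⟨h, h'⟩; exact ⟨h, lt_of_lt_of_le hu.1 h, h'⟩
    rw [h3, integral_Icc_eq_integral_Ioc]
  rw [setIntegral_congr_fun measurableSet_Ioc (fun p hp => (e1 p hp).symm),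
    setIntegral_congr_fun measurableSet_Ioc (fun p hp => (e2 p hp).symm)]
  exact key

lemma prim_cont (h : ℝ → ℝ) (hh : IntervalIntegrable h volume 0 1) :
    ContinuousOn (fun p => ∫ u in (0 : ℝ)..p, h u) (Icc 0 1) := by
  have := intervalIntegral.continuousOn_primitive_interval' hh (left_mem_uIcc)
  rwa [uIcc_of_le zero_le_one] at this

lemma prim_int (h : ℝ → ℝ) (hh : IntervalIntegrable h volume 0 1) :
    IntervalIntegrable (fun p => ∫ u in (0 : ℝ)..p, h u) volume 0 1 := by
  apply ContinuousOn.intervalIntegrable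
  rw [uIcc_of_le zero_le_one]
  exact prim_cont h hh

lemma triple (h : ℝ → ℝ) (hh : IntervalIntegrable h volume 0 1) :
    ∫ p in (0 : ℝ)..1, ∫ v in (0 : ℝ)..p, ∫ u in (0 : ℝ)..v, h u =
      ∫ u in (0 : ℝ)..1, ((1 - u) ^ 2 / 2) * h u := by
  have h1 := swap_int (fun _ => 1) (fun p => ∫ u in (0 : ℝ)..p, h u)
    (by simp) (prim_int h hh)
  simp only [one_mul] at h1
  rw [h1]
  have h2 := swap_int (fun v => 1 - v) h (by
    apply Continuous.intervalIntegrable
    fun_prop) hh
  have e1 : ∀ u : ℝ, ∫ _ in u..1, (1 : ℝ) = 1 - u := by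
    intro u
    simp
  have e2 : ∀ u : ℝ, ∫ p in u..1, (1 - p) = (1 - u) ^ 2 / 2 := by
    intro u
    rw [intervalIntegral.integral_sub (by simp) (by simp)]
    simp
    ring
  simp only [e1]
  rw [h2]
  simp only [e2]

end integrals

lemma ISDle_three {μ μ' : Measure ℝ} (h1 : IntervalIntegrable (quantile μ) volume 0 1)
    (h2 : IntervalIntegrable (quantile μ') volume 0 1) (h : ISDle 3 μ μ') :
    ∫ u in (0 : ℝ)..1, ((1 - u) ^ 2 / 2) * quantile μ u ≤
      ∫ u in (0 : ℝ)..1, ((1 - u) ^ 2 / 2) * quantile μ' u := by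
  rw [← triple _ h1, ← triple _ h2]
  have c1 := prim_int _ (prim_int _ h1)
  have c2 := prim_int _ (prim_int _ h2)
  apply intervalIntegral.integral_mono_on_of_le_Ioo zero_le_one c1 c2
  intro p hp
  exact h p hp

lemma quantile_int (μ : Measure ℝ) [IsProbabilityMeasure μ] (h : Integrable (fun x => x) μ) :
    IntervalIntegrable (quantile μ) volume 0 1 := by
  have e : (lam 1).map (quantile μ) = μ := by
    have : IsProbabilityMeasure ((lam 1).map (quantile μ)) :=
      Measure.isProbabilityMeasure_map ((aem_quantile _).mono_ac (lam_ac 1))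
    apply ext_of_real_Ioi
    intro w
    rw [map_lam_Ioi, pow_one]
  rw [← e] at h
  have h2 := (integrable_map_measure (by fun_prop)
    ((aem_quantile μ).mono_ac (lam_ac 1))).mp h
  rw [lam_one] at h2
  rw [intervalIntegrable_iff_integrableOn_Ioo_of_le zero_le_one]
  exact h2

section noise

variable (s a b : ℝ) (ν : Measure ℝ) [IsProbabilityMeasure ν]

lemma conv_integrable (hν : Integrable (fun x => x) ν) :
    Integrable (fun x => x) (Measure.conv (two s a b) ν) := by
  have h : Measure.conv (two s a b) ν = ENNReal.ofReal (1 - s) • ν.map (fun y => a + y) +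
      ENNReal.ofReal s • ν.map (fun y => b + y) := by
    unfold two
    rw [Measure.add_conv, Measure.conv_smul_left, Measure.conv_smul_left, Measure.dirac_conv,
      Measure.dirac_conv]
  have hm : ∀ c : ℝ, Integrable (fun x => x) (ν.map (fun y => c + y)) := by
    intro c
    rw [integrable_map_measure (by fun_prop) (by fun_prop)]
    exact (integrable_const c).add hν
  rw [h]
  exact ((hm a).smul_measure ENNReal.ofReal_ne_top).add_measure
    ((hm b).smul_measure ENNReal.ofReal_ne_top)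

lemma g3_integrable (hν : Integrable (fun x => x) ν) (x y z : ℝ) :
    Integrable (g3 x y z) (ν.prod (ν.prod ν)) := by
  have i1 : Integrable (fun v : ℝ × ℝ × ℝ => v.1 + x) (ν.prod (ν.prod ν)) :=
    (hν.comp_fst (ν.prod ν)).add (integrable_const x)
  have i2 : Integrable (fun v : ℝ × ℝ × ℝ => v.2.1 + y) (ν.prod (ν.prod ν)) :=
    ((hν.comp_fst ν).comp_snd ν).add (integrable_const y)
  have i3 : Integrable (fun v : ℝ × ℝ × ℝ => v.2.2 + z) (ν.prod (ν.prod ν)) :=
    ((hν.comp_snd ν).comp_snd ν).add (integrable_const z)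
  exact i1.inf (i2.inf i3)

lemma third (h0 : 0 ≤ s) (h1 : s ≤ 1) (hν : Integrable (fun x => x) ν) :
    ∫ u in (0 : ℝ)..1, ((1 - u) ^ 2 / 2) * quantile (Measure.conv (two s a b) ν) u =
      (1 / 6) * ∫ v, (∑ β : Bool × Bool × Bool, (wt s β.1 * wt s β.2.1 * wt s β.2.2) *
        g3 (pt a b β.1) (pt a b β.2.1) (pt a b β.2.2) v) ∂(ν.prod (ν.prod ν)) := by
  have hp := two_prob s a b h0 h1
  have e1 : ∫ x, x ∂(mix s a b ν) =
      ∫ u, quantile (Measure.conv (two s a b) ν) u ∂(lam 3) := by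
    rw [mix_eq s a b ν h0 h1, integral_map ((aem_quantile _).mono_ac (lam_ac 3)) (by fun_prop)]
  have e2 : ∫ u, quantile (Measure.conv (two s a b) ν) u ∂(lam 3) =
      6 * ∫ u in (0 : ℝ)..1, ((1 - u) ^ 2 / 2) * quantile (Measure.conv (two s a b) ν) u := by
    unfold lam
    rw [integral_withDensity_eq_integral_toReal_smul₀ (by fun_prop)
      (ae_of_all _ fun _ => ENNReal.ofReal_lt_top),
      ← intervalIntegral.integral_const_mul, intervalIntegral.integral_of_le zero_le_one,
      integral_Ioc_eq_integral_Ioo]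
    apply setIntegral_congr_fun measurableSet_Ioo
    intro u hu
    show (ENNReal.ofReal (((3 : ℕ) : ℝ) * (1 - u) ^ (3 - 1))).toReal • _ = _
    rw [ENNReal.toReal_ofReal (mul_nonneg (by positivity)
      (pow_nonneg (by linarith [hu.2]) _)), smul_eq_mul]
    push_cast
    ring
  have e3 : ∫ x, x ∂(mix s a b ν) = ∑ β : Bool × Bool × Bool,
      (wt s β.1 * wt s β.2.1 * wt s β.2.2) *
        ∫ v, g3 (pt a b β.1) (pt a b β.2.1) (pt a b β.2.2) v ∂(ν.prod (ν.prod ν)) := by
    unfold mix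
    rw [integral_finsetSum_measure]
    · apply Finset.sum_congr rfl
      intro β _
      rw [integral_smul_measure, integral_map (meas_g3 _ _ _).aemeasurable (by fun_prop),
        ENNReal.toReal_ofReal, smul_eq_mul]
      exact mul_nonneg (mul_nonneg (wt_nonneg s h0 h1 _) (wt_nonneg s h0 h1 _))
        (wt_nonneg s h0 h1 _)
    · intro β _
      apply Integrable.smul_measure _ ENNReal.ofReal_ne_top
      rw [integrable_map_measure (by fun_prop) (meas_g3 _ _ _).aemeasurable]
      exact g3_integrable ν hν _ _ _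
  rw [integral_finsetSum]
  · simp only [integral_const_mul]
    rw [← e3, e1, e2]
    ring
  · intro β _
    exact (g3_integrable ν hν _ _ _).const_mul _

end noise



section twopoint

variable (s a b : ℝ)

lemma two_Ioi (h0 : 0 ≤ s) (h1 : s ≤ 1) (hab : a < b) (w : ℝ) :
    (two s a b).real (Ioi w) = if w < a then 1 else if w < b then s else 0 := by
  rw [Measure.real]
  simp only [two, Measure.coe_add, Measure.coe_smul, Pi.add_apply, Pi.smul_apply, smul_eq_mul,
    Measure.dirac_apply' _ measurableSet_Ioi]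
  by_cases hwa : w < a
  · have hwb : w < b := hwa.trans hab
    rw [indicator_of_mem (show a ∈ Ioi w from hwa), indicator_of_mem (show b ∈ Ioi w from hwb),
      if_pos hwa]
    simp only [Pi.one_apply, mul_one]
    rw [← ENNReal.ofReal_add (by linarith) h0]
    simp
  · rw [indicator_of_notMem (show a ∉ Ioi w from hwa), if_neg hwa]
    by_cases hwb : w < b
    · rw [indicator_of_mem (show b ∈ Ioi w from hwb), if_pos hwb]
      simp [h0]
    · rw [indicator_of_notMem (show b ∉ Ioi w from hwb), if_neg hwb]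
      simp

lemma min_law (μ : Measure ℝ) [IsProbabilityMeasure μ] (k : ℕ) [NeZero k] (w : ℝ) :
    ((Measure.pi fun _ : Fin k => μ).map (fun x : Fin k → ℝ => ⨅ i, x i)).real (Ioi w) =
      μ.real (Ioi w) ^ k := by
  have : Nonempty (Fin k) := ⟨⟨0, Nat.pos_of_ne_zero (NeZero.ne k)⟩⟩
  have hm : Measurable (fun x : Fin k → ℝ => ⨅ i, x i) :=
    Measurable.iInf (fun i => measurable_pi_apply i)
  rw [Measure.real, Measure.map_apply hm measurableSet_Ioi]
  have : (fun x : Fin k → ℝ => ⨅ i, x i) ⁻¹' Ioi w = Set.univ.pi (fun _ => Ioi w) := by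
    ext x
    simp only [mem_preimage, mem_Ioi, mem_univ_pi]
    constructor
    · intro h i
      exact lt_of_lt_of_le h (ciInf_le (Finite.bddBelow_range x) i)
    · intro h
      obtain ⟨i, hi⟩ := exists_eq_ciInf_of_finite (f := x)
      rw [← hi]
      exact h i
  rw [this, Measure.pi_pi]
  simp [Measure.real]

lemma minMean_two (h0 : 0 ≤ s) (h1 : s ≤ 1) (hab : a < b) (k : ℕ) [NeZero k] :
    minMean (two s a b) k = a + (b - a) * s ^ k := by
  have hk : Nonempty (Fin k) := ⟨⟨0, Nat.pos_of_ne_zero (NeZero.ne k)⟩⟩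
  have hp := two_prob s a b h0 h1
  have hm : Measurable (fun x : Fin k → ℝ => ⨅ i, x i) :=
    Measurable.iInf (fun i => measurable_pi_apply i)
  have hs0 : 0 ≤ s ^ k := pow_nonneg h0 k
  have hs1 : s ^ k ≤ 1 := pow_le_one₀ h0 h1
  have hp2 := two_prob (s ^ k) a b hs0 hs1
  have hp3 : IsProbabilityMeasure ((Measure.pi fun _ : Fin k => two s a b).map
      (fun x : Fin k → ℝ => ⨅ i, x i)) :=
    Measure.isProbabilityMeasure_map hm.aemeasurable
  have e : (Measure.pi fun _ : Fin k => two s a b).map (fun x : Fin k → ℝ => ⨅ i, x i) =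
      two (s ^ k) a b := by
    apply ext_of_real_Ioi
    intro w
    rw [min_law, two_Ioi s a b h0 h1 hab, two_Ioi (s ^ k) a b hs0 hs1 hab]
    split_ifs
    · simp
    · rfl
    · simp [NeZero.ne k]
  have e2 : minMean (two s a b) k = ∫ x, x ∂(two (s ^ k) a b) := by
    unfold minMean
    rw [← e, integral_map hm.aemeasurable (by fun_prop)]
  rw [e2]
  unfold two
  rw [integral_add_measure, integral_smul_measure, integral_smul_measure, integral_dirac,
    integral_dirac, ENNReal.toReal_ofReal (by linarith), ENNReal.toReal_ofReal hs0]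
  · simp only [smul_eq_mul]
    ring
  · exact (integrable_dirac (by simp)).smul_measure ENNReal.ofReal_ne_top
  · exact (integrable_dirac (by simp)).smul_measure ENNReal.ofReal_ne_top

lemma two_integrable : Integrable (fun x => x) (two s a b) :=
  ((integrable_dirac (by simp)).smul_measure ENNReal.ofReal_ne_top).add_measure
    ((integrable_dirac (by simp)).smul_measure ENNReal.ofReal_ne_top)

end twopoint

lemma sumX (v : ℝ × ℝ × ℝ) : ∑ β : Bool × Bool × Bool,
    (wt (1 / 3) β.1 * wt (1 / 3) β.2.1 * wt (1 / 3) β.2.2) *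
        g3 (pt (-1) 2 β.1) (pt (-1) 2 β.2.1) (pt (-1) 2 β.2.2) v = fX v.1 v.2.1 v.2.2 := by
  simp only [Fintype.sum_prod_type, Fintype.sum_bool, wt, pt, g3, fX, if_true,
    Bool.false_eq_true, if_false, ← sub_eq_add_neg]
  ring

lemma sumY (v : ℝ × ℝ × ℝ) : ∑ β : Bool × Bool × Bool,
    (wt (2 / 3) β.1 * wt (2 / 3) β.2.1 * wt (2 / 3) β.2.2) *
        g3 (pt (-2) 1 β.1) (pt (-2) 1 β.2.1) (pt (-2) 1 β.2.2) v = fY v.1 v.2.1 v.2.2 := by
  simp only [Fintype.sum_prod_type, Fintype.sum_bool, wt, pt, g3, fY, if_true,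
    Bool.false_eq_true, if_false, ← sub_eq_add_neg]
  ring

lemma exists_box (ν : Measure ℝ) [IsProbabilityMeasure ν] :
    ∃ k : ℤ, 0 < ν (Ico (k : ℝ) (k + 1)) := by
  by_contra hcon
  push Not at hcon
  have h : ν univ = 0 := by
    rw [← iUnion_Ico_intCast ℝ]
    exact measure_iUnion_null (fun k => le_antisymm (hcon k) (zero_le))
  simp at h

lemma strict (ν : Measure ℝ) [IsProbabilityMeasure ν] (hν : Integrable (fun x => x) ν) :
    ∫ v, fY v.1 v.2.1 v.2.2 ∂(ν.prod (ν.prod ν)) <
      ∫ v, fX v.1 v.2.1 v.2.2 ∂(ν.prod (ν.prod ν)) := by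
  have iX : Integrable (fun v : ℝ × ℝ × ℝ => fX v.1 v.2.1 v.2.2) (ν.prod (ν.prod ν)) := by
    simp only [← sumX]
    exact integrable_finsetSum _ (fun β _ => (g3_integrable ν hν _ _ _).const_mul _)
  have iY : Integrable (fun v : ℝ × ℝ × ℝ => fY v.1 v.2.1 v.2.2) (ν.prod (ν.prod ν)) := by
    simp only [← sumY]
    exact integrable_finsetSum _ (fun β _ => (g3_integrable ν hν _ _ _).const_mul _)
  rw [← sub_pos, ← integral_sub iX iY]
  obtain ⟨k, hk⟩ := exists_box ν
  set B : Set (ℝ × ℝ × ℝ) := Ico (k : ℝ) (k + 1) ×ˢ (Ico (k : ℝ) (k + 1) ×ˢ Ico (k : ℝ) (k + 1))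
  have hB : 0 < (ν.prod (ν.prod ν)) B := by
    rw [Measure.prod_prod, Measure.prod_prod]
    positivity
  rw [integral_pos_iff_support_of_nonneg (fun v => nonneg _ _ _) (iX.sub iY)]
  apply lt_of_lt_of_le hB
  apply measure_mono
  intro v hv
  obtain ⟨h1, h2, h3⟩ := hv
  have := lower v.1 v.2.1 v.2.2 k h1.1 h2.1 h3.1 h1.2.le h2.2.le h3.2.le
  rw [Function.mem_support]
  have h4 : (0 : ℝ) < fX v.1 v.2.1 v.2.2 - fY v.1 v.2.1 v.2.2 := by linarith
  exact h4.ne'

/-- There are laws of `X` and `Y` on `ℝ` with finite mean, with equal mean minima of order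
`1` and `2`, with `μ^X_{1:3} > μ^Y_{1:3}`, such that no integrable independent noise `Z`
yields `X + Z <_3^- Y + Z`. -/
theorem result : ∃ (n : ℕ) (μX μY : Measure ℝ), 2 < n ∧
    IsProbabilityMeasure μX ∧ IsProbabilityMeasure μY ∧
    Integrable (fun x => x) μX ∧ Integrable (fun x => x) μY ∧
    (∀ k, 1 ≤ k → k ≤ n - 1 → minMean μX k = minMean μY k) ∧
    minMean μX n > minMean μY n ∧
    ∀ ν : Measure ℝ, IsProbabilityMeasure ν → Integrable (fun x => x) ν →
      ¬ ISDlt n (Measure.conv μX ν) (Measure.conv μY ν) := by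
  refine ⟨3, two (1 / 3) (-1) 2, two (2 / 3) (-2) 1, by norm_num,
    two_prob _ _ _ (by norm_num) (by norm_num), two_prob _ _ _ (by norm_num) (by norm_num),
    two_integrable _ _ _, two_integrable _ _ _, ?_, ?_, ?_⟩
  · intro k hk1 hk2
    have hk : k = 1 ∨ k = 2 := by omega
    rcases hk with rfl | rfl
    · rw [minMean_two _ _ _ (by norm_num) (by norm_num) (by norm_num),
        minMean_two _ _ _ (by norm_num) (by norm_num) (by norm_num)]
      norm_num
    · rw [minMean_two _ _ _ (by norm_num) (by norm_num) (by norm_num),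
        minMean_two _ _ _ (by norm_num) (by norm_num) (by norm_num)]
      norm_num
  · rw [minMean_two _ _ _ (by norm_num) (by norm_num) (by norm_num),
      minMean_two _ _ _ (by norm_num) (by norm_num) (by norm_num)]
    norm_num
  · intro ν hνp hν hlt
    have hpX := two_prob (1 / 3) (-1) 2 (by norm_num) (by norm_num)
    have hpY := two_prob (2 / 3) (-2) 1 (by norm_num) (by norm_num)
    have h1 := ISDle_three
      (quantile_int _ (conv_integrable (1 / 3) (-1) 2 ν hν))
      (quantile_int _ (conv_integrable (2 / 3) (-2) 1 ν hν)) hlt.1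
    rw [third _ _ _ ν (by norm_num) (by norm_num) hν,
      third _ _ _ ν (by norm_num) (by norm_num) hν] at h1
    simp only [sumX, sumY] at h1
    have h2 := strict ν hν
    linarith

end Pool.Agent.Results.MP_dbe012_pr.NoiseReversal
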